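import Pool.Agent.Q50.MC.Grp

/-!
# Representations in characteristic p with the same traces at most places of a Frobenius class
-/

set_option autoImplicit false
set_option maxHeartbeats 4000000
set_option synthInstance.maxHeartbeats 400000
set_option linter.unusedSectionVars false
set_option linter.ambiguousOpen false

universe u

open Matrix NumberField

namespace Pool.Agent.Q50.ES.MC

open MS (Mod M2 Irreducible InSpan2)

variable {k : Type u} [Field k]

/-- **The 7/8 theorem in a Frobenius class.** Let `r`, `s` be representations of `Gal(Ω/F)` mod `p`, `L/F`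
finite Galois, `r` irreducible on `Gal(Ω/L)`. If their Frobenius traces agree at more than `7/8` of the
places in the Frobenius class of `τ` for `L/F`, then `r` and `s` are isomorphic on `Gal(Ω/L)`. -/
theorem iso_of_density {F L : Fld} {P : Type} {norm : P → ℕ} {frob : P → Γ}
    (hcheb : Chebotarev F norm frob) (hfrob : ∀ w, frob w ∈ Gal F) (hL : FiniteGalois F L)
    {τ : Γ} (hτ : τ ∈ Gal F) (r s : Mod k F)
    (hirr : ∀ t, InSpan2 {t | ∃ g ∈ Gal L, t = r.toFun g} t)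
    (hd : UpperDensityIn norm (7 / 8) {w | InClass F L τ (frob w)}
      {w | InClass F L τ (frob w) ∧ (r.toFun (frob w)).trace = (s.toFun (frob w)).trace}) :
    ∃ Q : GL (Fin 2) k, ∀ g ∈ Gal L,
      s.toFun g = (Q : M2 k) * r.toFun g * ((Q⁻¹ : GL (Fin 2) k) : M2 k) := by
  classical
  obtain ⟨M₁, hM₁, hFM₁, h₁⟩ := r.open_ker
  obtain ⟨M₂, hM₂, hFM₂, h₂⟩ := s.open_ker
  have hLfin : FiniteDimensional ℚ L := hL.2.1
  let M' : Fld := M₁ ⊔ M₂
  have hM'fin : FiniteDimensional ℚ M' := IntermediateField.finiteDimensional_sup M₁ M₂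
  let M : Fld := M' ⊔ L
  have hMfin : FiniteDimensional ℚ M := IntermediateField.finiteDimensional_sup M' L
  have hFM : F ≤ M := hL.1.trans le_sup_right
  have hLM : L ≤ M := le_sup_right
  -- the homomorphism to a finite group: values of `r` and `s` and the class in `Gal(L/F)`
  let φ : F.fixingSubgroup →* M2 k × M2 k := (r.hom le_rfl).prod (s.hom le_rfl)
  let NL : Subgroup F.fixingSubgroup := L.fixingSubgroup.subgroupOf F.fixingSubgroup
  have hNL : NL.Normal := by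
    refine ⟨fun x hx g => ?_⟩
    have hx' : x.1 ∈ Gal L := hx
    exact conj_mem hL g.2 hx'
  let Kr : Subgroup F.fixingSubgroup := φ.ker ⊓ NL
  have hKrN : Kr.Normal := inferInstance
  have hker : M.fixingSubgroup.subgroupOf F.fixingSubgroup ≤ Kr := by
    intro x hx
    have hx' : x.1 ∈ Gal M := hx
    have hx'' : x.1 ∈ Gal M' := fix_le le_sup_left hx'
    have hx3 : φ x = 1 :=
      Prod.ext (h₁ _ (fix_le le_sup_left hx'')) (h₂ _ (fix_le le_sup_right hx''))
    exact ⟨(MonoidHom.mem_ker).2 hx3, fix_le hLM hx'⟩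
  have hidx : M.fixingSubgroup.FiniteIndex := by
    have hgal : IsGalois ℚ Ω := MS.isGalois_omega
    have hfd : FiniteDimensional ℚ M := hMfin
    refine ⟨?_⟩
    rw [← IntermediateField.finrank_eq_fixingSubgroup_index]
    exact Module.finrank_pos.ne'
  have hidx2 : Kr.FiniteIndex := Subgroup.finiteIndex_of_le hker
  have hfin : Finite (F.fixingSubgroup ⧸ Kr) := Subgroup.finite_quotient_of_finiteIndex
  let G := F.fixingSubgroup ⧸ Kr
  let ρ₁ : G →* M2 k := QuotientGroup.lift Kr (r.hom le_rfl) (by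
    intro x hx
    exact congrArg Prod.fst ((MonoidHom.mem_ker).1 hx.1))
  let ρ₂ : G →* M2 k := QuotientGroup.lift Kr (s.hom le_rfl) (by
    intro x hx
    exact congrArg Prod.snd ((MonoidHom.mem_ker).1 hx.1))
  let q : Γ → G := fun x =>
    if h : x ∈ F.fixingSubgroup then QuotientGroup.mk ⟨x, h⟩ else 1
  have hq : ∀ x (h : x ∈ F.fixingSubgroup), q x = QuotientGroup.mk ⟨x, h⟩ := by
    intro x h
    simp only [q, dif_pos h]
  have hqmul : ∀ g ∈ Gal F, ∀ h ∈ Gal F, q (g * h) = q g * q h := by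
    intro g hg h hh
    rw [hq g hg, hq h hh, hq (g * h) (gal_mul hg hh)]
    rfl
  have hqinv : ∀ g ∈ Gal F, q g⁻¹ = (q g)⁻¹ := by
    intro g hg
    rw [hq g hg, hq g⁻¹ (gal_inv hg)]
    rfl
  have hqsurj : ∀ c : G, ∃ g ∈ Gal F, q g = c := by
    intro c
    obtain ⟨x, rfl⟩ := QuotientGroup.mk_surjective c
    exact ⟨x.1, x.2, hq x.1 x.2⟩
  have hρ₁ : ∀ x ∈ Gal F, ρ₁ (q x) = r.toFun x := by
    intro x hx
    rw [hq x hx]
    rfl
  have hρ₂ : ∀ x ∈ Gal F, ρ₂ (q x) = s.toFun x := by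
    intro x hx
    rw [hq x hx]
    rfl
  let N : Subgroup G := NL.map (QuotientGroup.mk' Kr)
  have hNn : N.Normal := hNL.map _ (QuotientGroup.mk'_surjective Kr)
  have hqL : ∀ x ∈ Gal F, (q x ∈ N ↔ x ∈ Gal L) := by
    intro x hx
    rw [hq x hx]
    constructor
    · rintro ⟨y, hy, hxy⟩
      have h1 : (QuotientGroup.mk y : G) = QuotientGroup.mk ⟨x, hx⟩ := hxy
      rw [QuotientGroup.eq] at h1
      have h2 : y⁻¹ * ⟨x, hx⟩ ∈ NL := h1.2
      have h3 : (⟨x, hx⟩ : F.fixingSubgroup) ∈ NL := by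
        have := NL.mul_mem hy h2
        rwa [mul_inv_cancel_left] at this
      exact h3
    · intro hxL
      exact ⟨⟨x, hx⟩, hxL, rfl⟩
  let t : G := q τ
  let B : Set G := {g | ∃ a, ∃ x ∈ N, g = a * (t * x) * a⁻¹}
  let C : Set G := {g | g ∈ B ∧ (ρ₁ g).trace = (ρ₂ g).trace}
  have hBc : ∀ c ∈ B, ∀ g, g * c * g⁻¹ ∈ B := by
    rintro c ⟨a, x, hx, rfl⟩ g
    exact ⟨g * a, x, hx, by group⟩
  have hCc : ∀ c ∈ C, ∀ g, g * c * g⁻¹ ∈ C := by
    rintro c ⟨hcB, hc⟩ g
    refine ⟨hBc c hcB g, ?_⟩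
    rw [map_mul, map_mul, map_mul, map_mul, trace_mul_comm, ← mul_assoc, ← map_mul,
      inv_mul_cancel, map_one, one_mul, hc, trace_mul_comm (ρ₂ g * ρ₂ c), ← mul_assoc,
      ← map_mul, inv_mul_cancel, map_one, one_mul]
  have hqB : ∀ x ∈ Gal F, (q x ∈ B ↔ InClass F L τ x) := by
    intro x hx
    constructor
    · rintro ⟨a', y', hy', hxy⟩
      obtain ⟨a, ha, rfl⟩ := hqsurj a'
      obtain ⟨y, hy, rfl⟩ := hqsurj y'
      have hyL : y ∈ Gal L := (hqL y hy).1 hy'
      -- `x = a τ y a⁻¹ z` with `z` in the kernel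
      have h1 : q x = q (a * (τ * y) * a⁻¹) := by
        rw [hqmul _ (gal_mul ha (gal_mul hτ hy)) _ (gal_inv ha), hqmul _ ha _ (gal_mul hτ hy),
          hqmul _ hτ _ hy, hqinv _ ha]
        exact hxy
      have hm : a * (τ * y) * a⁻¹ ∈ Gal F := gal_mul (gal_mul ha (gal_mul hτ hy)) (gal_inv ha)
      have h2 : (a * (τ * y) * a⁻¹)⁻¹ * x ∈ Gal L := by
        refine (hqL _ (gal_mul (gal_inv hm) hx)).1 ?_
        rw [hqmul _ (gal_inv hm) _ hx, hqinv _ hm, h1, inv_mul_cancel]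
        exact N.one_mem
      refine ⟨a, ha, y * (a⁻¹ * ((a * (τ * y) * a⁻¹)⁻¹ * x) * a⁻¹⁻¹), ?_, ?_⟩
      · exact gal_mul hyL (conj_mem hL (gal_inv ha) h2)
      · group
    · rintro ⟨a, ha, y, hy, rfl⟩
      have hyF : y ∈ Gal F := fix_le hL.1 hy
      refine ⟨q a, q y, (hqL y hyF).2 hy, ?_⟩
      rw [hqmul _ (gal_mul ha (gal_mul hτ hyF)) _ (gal_inv ha), hqmul _ ha _ (gal_mul hτ hyF),
        hqmul _ hτ _ hyF, hqinv _ ha]
  have hB : {w | q (frob w) ∈ B} = {w | InClass F L τ (frob w)} :=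
    Set.ext fun w => hqB _ (hfrob w)
  have hC : {w | q (frob w) ∈ C} =
      {w | InClass F L τ (frob w) ∧ (r.toFun (frob w)).trace = (s.toFun (frob w)).trace} := by
    ext w
    change (q (frob w) ∈ B ∧ (ρ₁ (q (frob w))).trace = (ρ₂ (q (frob w))).trace) ↔ _
    rw [hρ₁ _ (hfrob w), hρ₂ _ (hfrob w), hqB _ (hfrob w)]
    rfl
  have hmain := hcheb M G q B C (7 / 8) hMfin hFM (by
      intro x hx
      rw [hq x (fix_le hFM hx), QuotientGroup.eq_one_iff]
      exact hker hx) hqmul hqsurj ⟨t, 1, 1, N.one_mem, by group⟩ (fun c hc => hc.1) hBc hCc (by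
      rw [hB, hC]
      exact hd)
  have hcount := card_class N t B C rfl (fun c hc => hc.1) hCc
  have hNB : {x : G | x ∈ N ∧ t * x ∈ C} =
      {x : G | x ∈ N ∧ (ρ₁ (t * x)).trace = (ρ₂ (t * x)).trace} := by
    ext x
    constructor
    · rintro ⟨hx, h⟩
      exact ⟨hx, h.2⟩
    · rintro ⟨hx, h⟩
      exact ⟨hx, ⟨1, x, hx, by group⟩, h⟩
  rw [hNB] at hcount
  set D₁ : Set G := {x : G | x ∈ N ∧ (ρ₁ (t * x)).trace = (ρ₂ (t * x)).trace} with hD₁
  set D₂ : Set G := {x : G | x ∈ N ∧ (ρ₁ (t * x)).trace ≠ (ρ₂ (t * x)).trace} with hD₂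
  have hsum : D₁.ncard + D₂.ncard = (N : Set G).ncard := by
    rw [← Set.ncard_union_eq (by
      rw [Set.disjoint_left]
      rintro x ⟨_, h1⟩ ⟨_, h2⟩
      exact h2 h1)]
    congr 1
    ext x
    constructor
    · rintro (h | h)
      · exact h.1
      · exact h.1
    · intro hx
      by_cases h : (ρ₁ (t * x)).trace = (ρ₂ (t * x)).trace
      · exact Or.inl ⟨hx, h⟩
      · exact Or.inr ⟨hx, h⟩
  have hBpos : 0 < B.ncard := by
    rw [Set.ncard_pos]
    exact ⟨t, 1, 1, N.one_mem, by group⟩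
  have hNpos : 0 < (N : Set G).ncard := by
    rw [Set.ncard_pos]
    exact ⟨1, N.one_mem⟩
  have hkey : 7 * (N : Set G).ncard < 8 * D₁.ncard := by
    have h1 : (7 : ℝ) * (B.ncard : ℝ) < 8 * (C.ncard : ℝ) := by linarith
    have h2 : 7 * B.ncard < 8 * C.ncard := by exact_mod_cast h1
    have h3 : 7 * B.ncard * (N : Set G).ncard < 8 * C.ncard * (N : Set G).ncard :=
      Nat.mul_lt_mul_of_pos_right h2 hNpos
    have h4 : B.ncard * (7 * (N : Set G).ncard) < B.ncard * (8 * D₁.ncard) := by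
      calc B.ncard * (7 * (N : Set G).ncard) = 7 * B.ncard * (N : Set G).ncard := by ring
        _ < 8 * C.ncard * (N : Set G).ncard := h3
        _ = 8 * (C.ncard * (N : Set G).ncard) := by ring
        _ = 8 * (B.ncard * D₁.ncard) := by rw [hcount]
        _ = _ := by ring
    exact Nat.lt_of_mul_lt_mul_left h4
  obtain ⟨Q, hQ⟩ := iso_of_traces (n := 2) (by norm_num) ρ₁ ρ₂ N t (by
      intro a
      refine Submodule.span_mono ?_ (hirr a)
      rintro _ ⟨g, hg, rfl⟩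
      exact ⟨q g, (hqL g (fix_le hL.1 hg)).2 hg, hρ₁ g (fix_le hL.1 hg)⟩) (by
      change 2 * 2 ^ 2 * D₂.ncard < (N : Set G).ncard
      omega)
  refine ⟨Q, fun g hg => ?_⟩
  have hgF : g ∈ Gal F := fix_le hL.1 hg
  rw [← hρ₁ g hgF, ← hρ₂ g hgF]
  exact hQ (q g) ((hqL g hgF).2 hg)

theorem mem_center_of_comm {c : M2 k} {S : Set (M2 k)} (hS : ∀ a, a ∈ Submodule.span k S)
    (hc : ∀ a ∈ S, c * a = a * c) : ∃ x : k, c = x • 1 := by
  have h1 : ∀ a : M2 k, c * a = a * c := by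
    intro a
    induction hS a using Submodule.span_induction with
    | mem x hx => exact hc x hx
    | zero => simp
    | add x y _ _ h1 h2 => rw [mul_add, add_mul, h1, h2]
    | smul x y _ h1 => rw [mul_smul_comm, smul_mul_assoc, h1]
  have h2 : c ∈ Set.range (Matrix.scalar (Fin 2) : k → M2 k) := by
    rw [Matrix.mem_range_scalar_iff_commute_single']
    intro i j
    exact (h1 _).symm
  obtain ⟨x, hx⟩ := h2
  exact ⟨x, by rw [← hx, Matrix.scalar_apply, Matrix.smul_one_eq_diagonal]⟩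

/-- **Twists.** Representations of `Gal(Ω/F)` which are isomorphic on `Gal(Ω/L)`, `L/F` finite Galois,
where they are irreducible, differ by a character of `Gal(L/F)`. -/
theorem exists_twist {F L : Fld} (hL : FiniteGalois F L) (r s : Mod k F)
    (hirr : ∀ t, InSpan2 {t | ∃ g ∈ Gal L, t = r.toFun g} t) {Q : GL (Fin 2) k}
    (hQ : ∀ g ∈ Gal L,
      s.toFun g = (Q : M2 k) * r.toFun g * ((Q⁻¹ : GL (Fin 2) k) : M2 k)) :
    ∃ χ : Γ → k, (∀ g ∈ Gal F, ∀ h ∈ Gal F, χ (g * h) = χ g * χ h) ∧ (∀ h ∈ Gal L, χ h = 1) ∧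
      ∀ g ∈ Gal F,
        s.toFun g = χ g • ((Q : M2 k) * r.toFun g * ((Q⁻¹ : GL (Fin 2) k) : M2 k)) := by
  classical
  have hri : ∀ g ∈ Gal F, r.toFun g * r.toFun g⁻¹ = 1 := by
    intro g hg
    rw [← r.map_mul hg (gal_inv hg), mul_inv_cancel, r.one]
  have hri' : ∀ g ∈ Gal F, r.toFun g⁻¹ * r.toFun g = 1 := by
    intro g hg
    rw [← r.map_mul (gal_inv hg) hg, inv_mul_cancel, r.one]
  -- `s` moved to the basis of `r`
  let s' : Γ → M2 k := fun g => ((Q⁻¹ : GL (Fin 2) k) : M2 k) * s.toFun g * (Q : M2 k)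
  have hQQ : (Q : M2 k) * ((Q⁻¹ : GL (Fin 2) k) : M2 k) = 1 := by
    rw [← Units.val_mul, mul_inv_cancel, Units.val_one]
  have hQQ' : ((Q⁻¹ : GL (Fin 2) k) : M2 k) * (Q : M2 k) = 1 := by
    rw [← Units.val_mul, inv_mul_cancel, Units.val_one]
  have hs'm : ∀ g ∈ Gal F, ∀ h ∈ Gal F, s' (g * h) = s' g * s' h := by
    intro g hg h hh
    change ((Q⁻¹ : GL (Fin 2) k) : M2 k) * s.toFun (g * h) * (Q : M2 k) =
      (((Q⁻¹ : GL (Fin 2) k) : M2 k) * s.toFun g * (Q : M2 k)) *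
        (((Q⁻¹ : GL (Fin 2) k) : M2 k) * s.toFun h * (Q : M2 k))
    rw [s.map_mul hg hh]
    calc _ = ((Q⁻¹ : GL (Fin 2) k) : M2 k) * s.toFun g * 1 * s.toFun h * (Q : M2 k) := by
          simp only [mul_assoc, one_mul]
      _ = _ := by rw [← hQQ]; simp only [mul_assoc]
  have hs'L : ∀ g ∈ Gal L, s' g = r.toFun g := by
    intro g hg
    change ((Q⁻¹ : GL (Fin 2) k) : M2 k) * s.toFun g * (Q : M2 k) = _
    rw [hQ g hg]
    calc _ = (((Q⁻¹ : GL (Fin 2) k) : M2 k) * (Q : M2 k)) * r.toFun g *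
          (((Q⁻¹ : GL (Fin 2) k) : M2 k) * (Q : M2 k)) := by simp only [mul_assoc]
      _ = _ := by rw [hQQ', one_mul, mul_one]
  have hs'i : ∀ g ∈ Gal F, s' g * s' g⁻¹ = 1 := by
    intro g hg
    rw [← hs'm g hg _ (gal_inv hg), mul_inv_cancel]
    have := hs'L 1 L.fixingSubgroup.one_mem
    rw [this, r.one]
  -- the scalar
  have hsc : ∀ g, ∃ x : k, g ∈ Gal F → r.toFun g⁻¹ * s' g = x • 1 := by
    intro g
    by_cases hg : g ∈ Gal F
    · obtain ⟨x, hx⟩ := mem_center_of_comm (c := r.toFun g⁻¹ * s' g) hirr (by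
        rintro _ ⟨y, hy, rfl⟩
        have hyF : y ∈ Gal F := fix_le hL.1 hy
        have hgy : g * y * g⁻¹ ∈ Gal L := conj_mem hL hg hy
        have e1 : r.toFun g * r.toFun y * r.toFun g⁻¹ = s' g * r.toFun y * s' g⁻¹ := by
          have h1 := hs'L _ hgy
          rw [hs'm _ (gal_mul hg hyF) _ (gal_inv hg), hs'm _ hg _ hyF, hs'L y hy,
            r.map_mul (gal_mul hg hyF) (gal_inv hg), r.map_mul hg hyF] at h1
          exact h1.symm
        have hs'i' : s' g⁻¹ * s' g = 1 := by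
          have := hs'i g⁻¹ (gal_inv hg)
          rwa [inv_inv] at this
        calc r.toFun g⁻¹ * s' g * r.toFun y
            = r.toFun g⁻¹ * (s' g * r.toFun y * s' g⁻¹) * s' g := by
              simp only [mul_assoc]
              rw [hs'i', mul_one]
          _ = r.toFun g⁻¹ * (r.toFun g * r.toFun y * r.toFun g⁻¹) * s' g := by rw [e1]
          _ = (r.toFun g⁻¹ * r.toFun g) * r.toFun y * (r.toFun g⁻¹ * s' g) := by
              simp only [mul_assoc]
          _ = r.toFun y * (r.toFun g⁻¹ * s' g) := by rw [hri' g hg, one_mul])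
      exact ⟨x, fun _ => hx⟩
    · exact ⟨1, fun h => absurd h hg⟩
  choose χ hχ using hsc
  have hs'χ : ∀ g ∈ Gal F, s' g = χ g • r.toFun g := by
    intro g hg
    calc s' g = r.toFun g * (r.toFun g⁻¹ * s' g) := by
          rw [← mul_assoc, hri g hg, one_mul]
      _ = χ g • r.toFun g := by rw [hχ g hg, mul_smul_comm, mul_one]
  have hcancel : ∀ x y : k, x • (1 : M2 k) = y • (1 : M2 k) → x = y := by
    intro x y h
    have := congrFun (congrFun h 0) 0
    simpa using this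
  refine ⟨χ, ?_, ?_, ?_⟩
  · intro g hg h hh
    have h1 := hs'χ _ (gal_mul hg hh)
    rw [hs'm g hg h hh, hs'χ g hg, hs'χ h hh, r.map_mul hg hh, smul_mul_smul_comm] at h1
    have h2 := congrArg (fun m => m * (r.toFun h⁻¹ * r.toFun g⁻¹)) h1
    have h3 : r.toFun g * r.toFun h * (r.toFun h⁻¹ * r.toFun g⁻¹) = 1 := by
      calc _ = r.toFun g * (r.toFun h * r.toFun h⁻¹) * r.toFun g⁻¹ := by simp only [mul_assoc]
        _ = 1 := by rw [hri h hh, mul_one, hri g hg]
    simp only [smul_mul_assoc, h3] at h2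
    exact (hcancel _ _ h2).symm
  · intro h hh
    have h1 := hs'χ h (fix_le hL.1 hh)
    rw [hs'L h hh] at h1
    have h2 := congrArg (fun m => m * r.toFun h⁻¹) h1
    simp only [smul_mul_assoc, hri h (fix_le hL.1 hh)] at h2
    exact (hcancel _ _ (by rw [one_smul]; exact h2)).symm
  · intro g hg
    have h1 : s.toFun g = (Q : M2 k) * s' g * ((Q⁻¹ : GL (Fin 2) k) : M2 k) := by
      change _ = (Q : M2 k) * (((Q⁻¹ : GL (Fin 2) k) : M2 k) * s.toFun g * (Q : M2 k)) *
        ((Q⁻¹ : GL (Fin 2) k) : M2 k)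
      calc s.toFun g = ((Q : M2 k) * ((Q⁻¹ : GL (Fin 2) k) : M2 k)) * s.toFun g *
            ((Q : M2 k) * ((Q⁻¹ : GL (Fin 2) k) : M2 k)) := by rw [hQQ, one_mul, mul_one]
        _ = _ := by simp only [mul_assoc]
    rw [h1, hs'χ g hg, mul_smul_comm, smul_mul_assoc]

/-- If moreover the determinants are equal and `L` contains no quadratic extension of `F`, the
representations are isomorphic on `Gal(Ω/F)`. -/
theorem iso_of_det {F L : Fld} (hL : FiniteGalois F L) (hnq : NoQuadratic F L) (r s : Mod k F)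
    (hirr : ∀ t, InSpan2 {t | ∃ g ∈ Gal L, t = r.toFun g} t)
    (hdet : ∀ g ∈ Gal F, (r.toFun g).det = (s.toFun g).det) {Q : GL (Fin 2) k}
    (hQ : ∀ g ∈ Gal L,
      s.toFun g = (Q : M2 k) * r.toFun g * ((Q⁻¹ : GL (Fin 2) k) : M2 k)) :
    ∀ g ∈ Gal F, s.toFun g = (Q : M2 k) * r.toFun g * ((Q⁻¹ : GL (Fin 2) k) : M2 k) := by
  classical
  obtain ⟨χ, hm, hχL, hχ⟩ := exists_twist hL r s hirr hQ
  have hQd : (Q : M2 k).det * ((Q⁻¹ : GL (Fin 2) k) : M2 k).det = 1 := by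
    rw [← det_mul, ← Units.val_mul, mul_inv_cancel, Units.val_one, det_one]
  have hsq : ∀ g ∈ Gal F, χ g * χ g = 1 := by
    intro g hg
    have h1 := hdet g hg
    rw [hχ g hg, det_smul, det_mul, det_mul, Fintype.card_fin] at h1
    have h2 : (Q : M2 k).det * (r.toFun g).det * ((Q⁻¹ : GL (Fin 2) k) : M2 k).det =
        (r.toFun g).det := by
      calc _ = ((Q : M2 k).det * ((Q⁻¹ : GL (Fin 2) k) : M2 k).det) * (r.toFun g).det := by ring
        _ = _ := by rw [hQd, one_mul]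
    rw [h2] at h1
    have h3 : (r.toFun g).det * (r.toFun g⁻¹).det = 1 := by
      rw [← det_mul, ← r.map_mul hg (gal_inv hg), mul_inv_cancel, r.one, det_one]
    have h4 := congrArg (fun x => x * (r.toFun g⁻¹).det) h1
    simp only [mul_assoc, h3, mul_one] at h4
    rw [← sq]
    exact h4.symm
  have hone : ∀ g ∈ Gal F, χ g = 1 := by
    by_contra hcon
    push Not at hcon
    obtain ⟨g₀, hg₀, hne⟩ := hcon
    have hpm : ∀ g ∈ Gal F, χ g = 1 ∨ χ g = -1 := fun g hg => mul_self_eq_one_iff.1 (hsq g hg)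
    have hg₀m : χ g₀ = -1 := (hpm g₀ hg₀).resolve_left hne
    have hneg : (-1 : k) ≠ 1 := fun h => hne (hg₀m.trans h)
    let H : Subgroup Γ :=
      { carrier := {g | g ∈ Gal F ∧ χ g = 1}
        mul_mem' := by
          rintro a b ⟨ha, ha1⟩ ⟨hb, hb1⟩
          exact ⟨gal_mul ha hb, by rw [hm a ha b hb, ha1, hb1, one_mul]⟩
        one_mem' := ⟨F.fixingSubgroup.one_mem, hχL 1 L.fixingSubgroup.one_mem⟩
        inv_mem' := by
          rintro a ⟨ha, ha1⟩
          refine ⟨gal_inv ha, ?_⟩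
          have h1 := hm a ha a⁻¹ (gal_inv ha)
          rw [mul_inv_cancel, hχL 1 L.fixingSubgroup.one_mem, ha1, one_mul] at h1
          exact h1.symm }
    refine hnq H (fun x hx => ⟨fix_le hL.1 hx, hχL x hx⟩) (fun x hx => hx.1) ?_
    -- the index of `H` is two
    rw [Subgroup.relIndex, Subgroup.index_eq_two_iff]
    refine ⟨⟨g₀, hg₀⟩, fun b => ?_⟩
    have hbF : b.1 ∈ Gal F := b.2
    have hmem : ∀ x : F.fixingSubgroup, x ∈ H.subgroupOf F.fixingSubgroup ↔ χ x.1 = 1 := by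
      intro x
      rw [Subgroup.mem_subgroupOf]
      exact ⟨fun h => h.2, fun h => ⟨x.2, h⟩⟩
    rw [hmem, hmem]
    change Xor (χ (b.1 * g₀) = 1) (χ b.1 = 1)
    rw [hm _ hbF _ hg₀, hg₀m]
    rcases hpm _ hbF with h | h
    · rw [h]
      right
      refine ⟨rfl, ?_⟩
      rw [one_mul]
      exact hneg
    · rw [h]
      left
      refine ⟨by ring, hneg⟩
  intro g hg
  rw [hχ g hg, hone g hg, one_smul]

end Pool.Agent.Q50.ES.MC
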