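import Pool.Agent.Q50.MS.Defs

/-!
# Places with a given Frobenius class, relative density
-/

set_option autoImplicit false

universe u

namespace Pool.Agent.Q50.ES.MC

open MS (Mod)

/-- The part of `S` in `B` has upper density greater than `θ` relative to `B`, with respect to `norm`. -/
def UpperDensityIn {X : Type} (norm : X → ℕ) (θ : ℝ) (B S : Set X) : Prop :=
  ∃ δ : ℝ, θ < δ ∧ ∃ᶠ x : ℕ in Filter.atTop,
    δ * ((B ∩ {w | norm w ≤ x}).ncard : ℝ) ≤ ((S ∩ B ∩ {w | norm w ≤ x}).ncard : ℝ)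

/-- The class of `g` in `Gal(L/F)` is conjugate to the class of `τ` (for `F ≤ L`, `L/F` Galois). -/
def InClass (F L : Fld) (τ g : Γ) : Prop := ∃ a ∈ Gal F, ∃ x ∈ Gal L, g = a * (τ * x) * a⁻¹

/-- No subgroup of index 2 of `Gal(Ω/F)` contains `Gal(Ω/L)`: the field `L` contains no quadratic extension
of `F`. -/
def NoQuadratic (F L : Fld) : Prop :=
  ∀ H : Subgroup Γ, L.fixingSubgroup ≤ H → H ≤ F.fixingSubgroup → H.relIndex F.fixingSubgroup ≠ 2

/-- The Chebotarev density theorem, for the places `P` of `F`, their norms and Frobenius elements: let `q`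
be a homomorphism of `Gal(Ω/F)` onto the finite group `G`, trivial on `Gal(Ω/M)`, and `C ⊆ B` unions of
conjugacy classes of `G`, `B` not empty. If the places whose Frobenius elements are mapped to `C` have
upper density greater than `θ` in the set of those whose Frobenius elements are mapped to `B`, then
`θ |B| < |C|`. -/
def Chebotarev (F : Fld) {P : Type} (norm : P → ℕ) (frob : P → Γ) : Prop :=
  ∀ (M : Fld) (G : Type) [Group G] [Finite G] (q : Γ → G) (B C : Set G) (θ : ℝ),
    FiniteDimensional ℚ M → F ≤ M → (∀ x ∈ Gal M, q x = 1) →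
    (∀ g ∈ Gal F, ∀ h ∈ Gal F, q (g * h) = q g * q h) → (∀ c, ∃ g ∈ Gal F, q g = c) →
    B.Nonempty → C ⊆ B → (∀ c ∈ B, ∀ g, g * c * g⁻¹ ∈ B) → (∀ c ∈ C, ∀ g, g * c * g⁻¹ ∈ C) →
    UpperDensityIn norm θ {w | q (frob w) ∈ B} {w | q (frob w) ∈ C} →
    θ * (B.ncard : ℝ) < (C.ncard : ℝ)

end Pool.Agent.Q50.ES.MC
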