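import Pool.Agent.Q50.MC.Defs
import Pool.Agent.Q50.MS.Main

/-!
# Traces at most elements of a coset, and conjugates of a coset
-/

set_option autoImplicit false
set_option maxHeartbeats 4000000
set_option synthInstance.maxHeartbeats 400000
set_option linter.unusedSectionVars false
set_option linter.ambiguousOpen false

universe u

open Matrix

namespace Pool.Agent.Q50.ES.MC

variable {k : Type u} [Field k]

/-- **Traces at most elements of a coset.** Let `ρ₁`, `ρ₂` be representations of dimension `n ≥ 1` of a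
finite group `G` over any field, `t ∈ G`, `N` a subgroup on which `ρ₁` is absolutely irreducible. If the
traces are different for less than `|N| / (2 n ^ 2)` elements of `t N`, then `ρ₁` and `ρ₂` are
isomorphic on `N`. -/
theorem iso_of_traces {G : Type} [Group G] [Finite G] {n : ℕ} (hn : 0 < n)
    (ρ₁ ρ₂ : G →* Matrix (Fin n) (Fin n) k) (N : Subgroup G) (t : G)
    (hspan : ∀ a, a ∈ Submodule.span k (ρ₁ '' N))
    (hcard : 2 * n ^ 2 * {x : G | x ∈ N ∧ (ρ₁ (t * x)).trace ≠ (ρ₂ (t * x)).trace}.ncard <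
      (N : Set G).ncard) :
    ∃ P : GL (Fin n) k, ∀ g ∈ N, ρ₂ g = (P : Matrix (Fin n) (Fin n) k) * ρ₁ g *
      ((P⁻¹ : GL (Fin n) k) : Matrix (Fin n) (Fin n) k) := by
  classical
  have : Nonempty (Fin n) := ⟨⟨0, hn⟩⟩
  let S : Submonoid (Matrix (Fin n) (Fin n) k × Matrix (Fin n) (Fin n) k) :=
    MonoidHom.mrange ((ρ₁.comp N.subtype).prod (ρ₂.comp N.subtype))
  set D : Set G := {x : G | x ∈ N ∧ (ρ₁ (t * x)).trace ≠ (ρ₂ (t * x)).trace} with hD
  obtain ⟨m, hNle, f, hfS, hfspan⟩ : ∃ m ≤ 2 * n ^ 2,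
      ∃ f : Fin m → Matrix (Fin n) (Fin n) k × Matrix (Fin n) (Fin n) k,
        (∀ i, f i ∈ S) ∧ Submodule.span k (Set.range f) = Submodule.span k (S : Set (_ × _)) := by
    obtain ⟨f, hfS, hfspan, -⟩ := Submodule.exists_fun_fin_finrank_span_eq k
      (S : Set (Matrix (Fin n) (Fin n) k × Matrix (Fin n) (Fin n) k))
    refine ⟨_, ?_, f, hfS, hfspan⟩
    have h1 := Submodule.finrank_le (Submodule.span k
      (S : Set (Matrix (Fin n) (Fin n) k × Matrix (Fin n) (Fin n) k)))
    rw [Module.finrank_prod, Module.finrank_matrix] at h1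
    simp only [Fintype.card_fin, Module.finrank_self, mul_one] at h1
    nlinarith [h1]
  have hg : ∀ i, ∃ g : G, g ∈ N ∧ f i = (ρ₁ g, ρ₂ g) := by
    intro i
    obtain ⟨g, hg⟩ := hfS i
    exact ⟨g.1, g.2, hg.symm⟩
  choose g hgN hg using hg
  -- an element outside all bad sets
  have hex : ∃ h ∈ N, ∀ i, (ρ₁ (t * (g i * h))).trace = (ρ₂ (t * (g i * h))).trace := by
    by_contra hcon
    push Not at hcon
    have hcover : (N : Set G) ⊆ ⋃ i : Fin m, (fun h => g i * h) ⁻¹' D := by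
      intro h hh
      obtain ⟨i, hi⟩ := hcon h hh
      exact Set.mem_iUnion.2 ⟨i, N.mul_mem (hgN i) hh, hi⟩
    have h1 : (N : Set G).ncard ≤ (⋃ i : Fin m, (fun h => g i * h) ⁻¹' D).ncard :=
      Set.ncard_le_ncard hcover (Set.toFinite _)
    have h2 : (⋃ i : Fin m, (fun h => g i * h) ⁻¹' D).ncard ≤
        ∑ i : Fin m, ((fun h => g i * h) ⁻¹' D).ncard := by
      have := Set.toFinite (⋃ i : Fin m, (fun h => g i * h) ⁻¹' D)
      rw [Set.ncard_eq_toFinset_card _ this]
      calc this.toFinset.card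
          ≤ (Finset.univ.biUnion fun i : Fin m =>
              (Set.toFinite ((fun h => g i * h) ⁻¹' D)).toFinset).card := by
            apply Finset.card_le_card
            intro x hx
            rw [Set.Finite.mem_toFinset, Set.mem_iUnion] at hx
            obtain ⟨i, hi⟩ := hx
            exact Finset.mem_biUnion.2 ⟨i, Finset.mem_univ _, by
              rw [Set.Finite.mem_toFinset]; exact hi⟩
        _ ≤ ∑ i : Fin m, (Set.toFinite ((fun h => g i * h) ⁻¹' D)).toFinset.card :=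
            Finset.card_biUnion_le
        _ = _ := by
            refine Finset.sum_congr rfl fun i _ => ?_
            rw [Set.ncard_eq_toFinset_card _ (Set.toFinite _)]
    have h3 : ∀ i, ((fun h => g i * h) ⁻¹' D).ncard = D.ncard := by
      intro i
      have : (fun h => g i * h) ⁻¹' D = (fun h => (g i)⁻¹ * h) '' D := by
        ext x
        constructor
        · intro hx
          exact ⟨g i * x, hx, by simp⟩
        · rintro ⟨y, hy, rfl⟩
          change g i * ((g i)⁻¹ * y) ∈ D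
          rwa [mul_inv_cancel_left]
      rw [this, Set.ncard_image_of_injective _ (mul_right_injective _)]
    rw [Finset.sum_congr rfl fun i _ => h3 i, Finset.sum_const, Finset.card_univ,
      Fintype.card_fin, smul_eq_mul] at h2
    have h4 : m * D.ncard ≤ 2 * n ^ 2 * D.ncard := Nat.mul_le_mul_right _ hNle
    omega
  obtain ⟨h, hhN, hh⟩ := hex
  have hall : ∀ p ∈ S, (ρ₁ (h * t) * p.1).trace = (ρ₂ (h * t) * p.2).trace := by
    intro p hp
    have hp' : p ∈ Submodule.span k (Set.range f) := by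
      rw [hfspan]
      exact Submodule.subset_span hp
    clear hp
    induction hp' using Submodule.span_induction with
    | mem x hx =>
      obtain ⟨i, rfl⟩ := hx
      rw [hg i]
      change (ρ₁ (h * t) * ρ₁ (g i)).trace = (ρ₂ (h * t) * ρ₂ (g i)).trace
      have h5 := hh i
      rw [← mul_assoc, map_mul, trace_mul_comm, ← map_mul, ← mul_assoc, map_mul,
        map_mul ρ₂, trace_mul_comm (ρ₂ (t * g i)), ← map_mul ρ₂, ← mul_assoc h t (g i),
        map_mul ρ₂] at h5
      exact h5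
    | zero => simp
    | add x y hx hy h1 h2 =>
      rw [Prod.fst_add, Prod.snd_add, mul_add, mul_add, trace_add, trace_add, h1, h2]
    | smul a x hx h1 =>
      rw [Prod.smul_fst, Prod.smul_snd, mul_smul_comm, mul_smul_comm, trace_smul, trace_smul, h1]
  obtain ⟨P, hP⟩ := GN.conj_of_trace_coset S (c := ρ₁ (h * t)) (d := ρ₂ (h * t))
    (c' := ρ₁ (h * t)⁻¹) (by
      intro m
      refine Submodule.span_mono ?_ (hspan m)
      rintro _ ⟨x, hx, rfl⟩
      exact ⟨(ρ₁ x, ρ₂ x), ⟨⟨x, hx⟩, rfl⟩, rfl⟩)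
    (by rw [← map_mul, mul_inv_cancel, map_one]) hall
  exact ⟨P, fun x hx => hP (ρ₁ x, ρ₂ x) ⟨⟨x, hx⟩, rfl⟩⟩

/-- **Counting in the conjugates of a coset.** Let `N` be a normal subgroup of the finite group `G`,
`t ∈ G`, `B` the union of the conjugates of `t N` and `C ⊆ B` a union of conjugacy classes. Then
`|C| |N| = |B| |{x ∈ N | t x ∈ C}|`. -/
theorem card_class {G : Type} [Group G] [Finite G] (N : Subgroup G) [N.Normal] (t : G)
    (B C : Set G) (hB : B = {g | ∃ a, ∃ x ∈ N, g = a * (t * x) * a⁻¹}) (hCB : C ⊆ B)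
    (hC : ∀ c ∈ C, ∀ g, g * c * g⁻¹ ∈ C) :
    C.ncard * (N : Set G).ncard = B.ncard * {x : G | x ∈ N ∧ t * x ∈ C}.ncard := by
  classical
  have := Fintype.ofFinite G
  -- the number of `a` with `a⁻¹ b a ∈ t N`
  let z : ℕ := (Finset.univ.filter fun a : G => t⁻¹ * (a⁻¹ * t * a) ∈ N).card
  have hz : ∀ b ∈ B, (Finset.univ.filter fun a : G => t⁻¹ * (a⁻¹ * b * a) ∈ N).card = z := by
    intro b hb
    rw [hB] at hb
    obtain ⟨a₀, x₀, hx₀, rfl⟩ := hb
    refine Finset.card_bij (fun a _ => a₀⁻¹ * a) ?_ ?_ ?_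
    · intro a ha
      rw [Finset.mem_filter] at ha ⊢
      refine ⟨Finset.mem_univ _, ?_⟩
      have h1 : t⁻¹ * ((a₀⁻¹ * a)⁻¹ * t * (a₀⁻¹ * a)) =
          (t⁻¹ * (a⁻¹ * (a₀ * (t * x₀) * a₀⁻¹) * a)) *
            ((a₀⁻¹ * a)⁻¹ * x₀⁻¹ * (a₀⁻¹ * a)) := by group
      rw [h1]
      refine N.mul_mem ha.2 ?_
      have h2 := Subgroup.Normal.conj_mem (inferInstance : N.Normal) x₀⁻¹ (N.inv_mem hx₀)
        (a₀⁻¹ * a)⁻¹
      rwa [inv_inv] at h2
    · intro a _ b _ h
      exact mul_left_cancel h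
    · intro a ha
      rw [Finset.mem_filter] at ha
      refine ⟨a₀ * a, ?_, by group⟩
      rw [Finset.mem_filter]
      refine ⟨Finset.mem_univ _, ?_⟩
      have h1 : t⁻¹ * ((a₀ * a)⁻¹ * (a₀ * (t * x₀) * a₀⁻¹) * (a₀ * a)) =
          (t⁻¹ * (a⁻¹ * t * a)) * (a⁻¹ * x₀ * a) := by group
      rw [h1]
      refine N.mul_mem ha.2 ?_
      have h2 := Subgroup.Normal.conj_mem (inferInstance : N.Normal) x₀ hx₀ a⁻¹
      rwa [inv_inv] at h2
  have key : ∀ E : Set G, E ⊆ B → (∀ c ∈ E, ∀ g, g * c * g⁻¹ ∈ E) →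
      Nat.card G * {x : G | x ∈ N ∧ t * x ∈ E}.ncard = z * E.ncard := by
    intro E hEB hE
    -- count pairs (a, b) with b ∈ E and a⁻¹ b a ∈ t N
    have h1 : ((Finset.univ : Finset (G × G)).filter fun p =>
        p.2 ∈ E ∧ t⁻¹ * (p.1⁻¹ * p.2 * p.1) ∈ N).card = z * E.ncard := by
      rw [Finset.card_eq_sum_card_fiberwise (f := Prod.snd) (t := Set.toFinset E) (by
        intro p hp
        rw [Finset.mem_coe, Finset.mem_filter] at hp
        exact Finset.mem_coe.2 (Set.mem_toFinset.2 hp.2.1))]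
      rw [Finset.sum_congr rfl (g := fun _ => z) (by
        intro b hb
        rw [Set.mem_toFinset] at hb
        rw [← hz b (hEB hb)]
        refine Finset.card_bij (fun p _ => p.1) ?_ ?_ ?_
        · intro p hp
          rw [Finset.mem_filter, Finset.mem_filter] at hp
          rw [Finset.mem_filter]
          refine ⟨Finset.mem_univ _, ?_⟩
          rw [← hp.2]
          exact hp.1.2.2
        · intro p hp p' hp' h
          rw [Finset.mem_filter] at hp hp'
          exact Prod.ext h (hp.2.trans hp'.2.symm)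
        · intro a ha
          rw [Finset.mem_filter] at ha
          refine ⟨(a, b), ?_, rfl⟩
          rw [Finset.mem_filter, Finset.mem_filter]
          exact ⟨⟨Finset.mem_univ _, hb, ha.2⟩, rfl⟩)]
      rw [Finset.sum_const, smul_eq_mul, Set.ncard_eq_toFinset_card', mul_comm]
    have h2 : ((Finset.univ : Finset (G × G)).filter fun p =>
        p.2 ∈ E ∧ t⁻¹ * (p.1⁻¹ * p.2 * p.1) ∈ N).card =
        Nat.card G * {x : G | x ∈ N ∧ t * x ∈ E}.ncard := by
      rw [Nat.card_eq_fintype_card, ← Finset.card_univ, Set.ncard_eq_toFinset_card',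
        ← Finset.card_product]
      refine Finset.card_bij (fun p _ => (p.1, t⁻¹ * (p.1⁻¹ * p.2 * p.1))) ?_ ?_ ?_
      · intro p hp
        rw [Finset.mem_filter] at hp
        rw [Finset.mem_product]
        refine ⟨Finset.mem_univ _, ?_⟩
        rw [Set.mem_toFinset]
        refine ⟨hp.2.2, ?_⟩
        change t * (t⁻¹ * (p.1⁻¹ * p.2 * p.1)) ∈ E
        rw [mul_inv_cancel_left]
        have := hE p.2 hp.2.1 p.1⁻¹
        rwa [inv_inv] at this
      · intro p _ p' _ h
        have h3 : p.1 = p'.1 := (Prod.ext_iff.1 h).1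
        have h4 : t⁻¹ * (p.1⁻¹ * p.2 * p.1) = t⁻¹ * (p'.1⁻¹ * p'.2 * p'.1) :=
          (Prod.ext_iff.1 h).2
        rw [← h3] at h4
        exact Prod.ext h3 (mul_left_cancel (mul_right_cancel (mul_left_cancel h4)))
      · intro p hp
        rw [Finset.mem_product, Set.mem_toFinset] at hp
        refine ⟨(p.1, p.1 * (t * p.2) * p.1⁻¹), ?_, ?_⟩
        · rw [Finset.mem_filter]
          refine ⟨Finset.mem_univ _, hE _ hp.2.2 _, ?_⟩
          have h3 : t⁻¹ * (p.1⁻¹ * (p.1 * (t * p.2) * p.1⁻¹) * p.1) = p.2 := by group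
          rw [h3]
          exact hp.2.1
        · refine Prod.ext rfl ?_
          change t⁻¹ * (p.1⁻¹ * (p.1 * (t * p.2) * p.1⁻¹) * p.1) = p.2
          group
    rw [← h2, h1]
  have hBc : ∀ c ∈ B, ∀ g, g * c * g⁻¹ ∈ B := by
    intro c hc g
    rw [hB] at hc ⊢
    obtain ⟨a, x, hx, rfl⟩ := hc
    exact ⟨g * a, x, hx, by group⟩
  have kC := key C hCB hC
  have kB := key B le_rfl hBc
  have hNB : {x : G | x ∈ N ∧ t * x ∈ B} = (N : Set G) := by
    ext x
    refine ⟨fun hx => hx.1, fun hx => ⟨hx, ?_⟩⟩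
    rw [hB]
    exact ⟨1, x, hx, by group⟩
  rw [hNB] at kB
  have hG : 0 < Nat.card G := Nat.card_pos
  have hz0 : 0 < z := by
    refine Finset.card_pos.2 ⟨1, ?_⟩
    rw [Finset.mem_filter]
    refine ⟨Finset.mem_univ _, ?_⟩
    have : t⁻¹ * (1⁻¹ * t * 1) = 1 := by group
    rw [this]
    exact N.one_mem
  -- `|G| |N| = z |B|`, `|G| |C ∩ t N| = z |C|`
  apply Nat.eq_of_mul_eq_mul_left (Nat.mul_pos hG hz0)
  calc Nat.card G * z * (C.ncard * (N : Set G).ncard)
      = (z * C.ncard) * (Nat.card G * (N : Set G).ncard) := by ring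
    _ = (Nat.card G * {x : G | x ∈ N ∧ t * x ∈ C}.ncard) * (z * B.ncard) := by rw [kC, kB]
    _ = _ := by ring

end Pool.Agent.Q50.ES.MC
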